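import Mathlib

/-!
# The factorial quotient `W n k` is an integer divisible by eight

For `2 ≤ n` and `k < n`, eight times
`(n-1)! (2n+1)! (n+k)!^2 (n-k-1)! (n+2k+1)! (2k+1)!` divides `(3n)! (2n+2k)!^2 k!`.
-/

open Finset Nat

namespace Pool.Agent.Lib.MP_147bb8_nt

lemma ediv_small (e P : ℤ) (hP : 0 < P) (lo : -P ≤ e) (hi : e < 4 * P) :
    (e / P = -1 ∧ e < 0) ∨ (e / P = 0 ∧ 0 ≤ e ∧ e < P) ∨ (e / P = 1 ∧ P ≤ e ∧ e < 2 * P) ∨
    (e / P = 2 ∧ 2 * P ≤ e ∧ e < 3 * P) ∨ (e / P = 3 ∧ 3 * P ≤ e ∧ e < 4 * P) := by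
  have h1 : P * (e / P) ≤ e := Int.mul_ediv_self_le hP.ne'
  have h2 : e < P * (e / P) + P := by
    have := Int.lt_mul_ediv_self_add (x := e) hP
    linarith
  generalize e / P = q at h1 h2
  have h3 : -1 ≤ q := by nlinarith
  have h4 : q ≤ 3 := by nlinarith
  interval_cases q <;> omega

lemma floor_key (P r s : ℤ) (hP : 2 ≤ P) (hr0 : 0 ≤ r) (hr : r < P) (hs0 : 0 ≤ s) (hs : s < P) :
    (r - 1) / P + (2 * r + 1) / P + 2 * ((r + s) / P) + (r - s - 1) / P + (r + 2 * s + 1) / P
      + (2 * s + 1) / P ≤ (3 * r) / P + 2 * ((2 * r + 2 * s) / P) + s / P := by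
  have hP0 : 0 < P := by omega
  rcases ediv_small (2 * r + 2 * s) P hP0 (by omega) (by omega) with h1 | h1 | h1 | h1 | h1 <;>
  try (exfalso; omega)
  all_goals
    rcases ediv_small (r + 2 * s + 1) P hP0 (by omega) (by omega) with h2 | h2 | h2 | h2 | h2 <;>
    try (exfalso; omega)
  all_goals
    rcases ediv_small (3 * r) P hP0 (by omega) (by omega) with h3 | h3 | h3 | h3 | h3 <;>
    try (exfalso; omega)
  all_goals
    rcases ediv_small (2 * r + 1) P hP0 (by omega) (by omega) with h4 | h4 | h4 | h4 | h4 <;>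
    try (exfalso; omega)
  all_goals
    rcases ediv_small (2 * s + 1) P hP0 (by omega) (by omega) with h5 | h5 | h5 | h5 | h5 <;>
    try (exfalso; omega)
  all_goals
    rcases ediv_small (r + s) P hP0 (by omega) (by omega) with h6 | h6 | h6 | h6 | h6 <;>
    try (exfalso; omega)
  all_goals
    rcases ediv_small (r - s - 1) P hP0 (by omega) (by omega) with h7 | h7 | h7 | h7 | h7 <;>
    try (exfalso; omega)
  all_goals
    rcases ediv_small (r - 1) P hP0 (by omega) (by omega) with h8 | h8 | h8 | h8 | h8 <;>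
    try (exfalso; omega)
  all_goals
    rcases ediv_small s P hP0 (by omega) (by omega) with h9 | h9 | h9 | h9 | h9 <;>
    omega

lemma floor_nat (P n k : ℕ) (hP : 2 ≤ P) (hk : k < n) :
    (n - 1) / P + (2 * n + 1) / P + 2 * ((n + k) / P) + (n - k - 1) / P + (n + 2 * k + 1) / P
      + (2 * k + 1) / P ≤ (3 * n) / P + 2 * ((2 * n + 2 * k) / P) + k / P := by
  have hPz : (P : ℤ) ≠ 0 := by positivity
  have hPp : (0 : ℤ) < P := by positivity
  have key := floor_key (P : ℤ) ((n % P : ℕ) : ℤ) ((k % P : ℕ) : ℤ) (by exact_mod_cast hP)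
    (by positivity) (by exact_mod_cast Nat.mod_lt _ (by omega)) (by positivity)
    (by exact_mod_cast Nat.mod_lt _ (by omega))
  have hn : (n : ℤ) = ((n % P : ℕ) : ℤ) + (P : ℤ) * ((n / P : ℕ) : ℤ) := by
    exact_mod_cast (Nat.mod_add_div n P).symm
  have hk' : (k : ℤ) = ((k % P : ℕ) : ℤ) + (P : ℤ) * ((k / P : ℕ) : ℤ) := by
    exact_mod_cast (Nat.mod_add_div k P).symm
  generalize ((n % P : ℕ) : ℤ) = r at key hn
  generalize ((k % P : ℕ) : ℤ) = s at key hk'
  generalize ((n / P : ℕ) : ℤ) = a at hn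
  generalize ((k / P : ℕ) : ℤ) = b at hk'
  have goalz : ((n : ℤ) - 1) / P + (2 * n + 1) / P + 2 * (((n : ℤ) + k) / P) + ((n : ℤ) - k - 1) / P
      + ((n : ℤ) + 2 * k + 1) / P + (2 * (k : ℤ) + 1) / P ≤
      (3 * (n : ℤ)) / P + 2 * ((2 * (n : ℤ) + 2 * k) / P) + (k : ℤ) / P := by
    rw [hn, hk']
    rw [show r + (P : ℤ) * a - 1 = (r - 1) + P * a by ring,
      show 2 * (r + (P : ℤ) * a) + 1 = (2 * r + 1) + P * (2 * a) by ring,
      show r + (P : ℤ) * a + (s + P * b) = (r + s) + P * (a + b) by ring,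
      show r + (P : ℤ) * a - (s + P * b) - 1 = (r - s - 1) + P * (a - b) by ring,
      show r + (P : ℤ) * a + 2 * (s + P * b) + 1 = (r + 2 * s + 1) + P * (a + 2 * b) by ring,
      show 2 * (s + (P : ℤ) * b) + 1 = (2 * s + 1) + P * (2 * b) by ring,
      show 3 * (r + (P : ℤ) * a) = 3 * r + P * (3 * a) by ring,
      show 2 * (r + (P : ℤ) * a) + 2 * (s + P * b) = (2 * r + 2 * s) + P * (2 * a + 2 * b) by ring,
      Int.add_mul_ediv_left _ _ hPz, Int.add_mul_ediv_left _ _ hPz, Int.add_mul_ediv_left _ _ hPz,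
      Int.add_mul_ediv_left _ _ hPz, Int.add_mul_ediv_left _ _ hPz, Int.add_mul_ediv_left _ _ hPz,
      Int.add_mul_ediv_left _ _ hPz, Int.add_mul_ediv_left _ _ hPz, Int.add_mul_ediv_left _ _ hPz]
    linarith
  have c1 : ((n - 1 : ℕ) : ℤ) = n - 1 := by omega
  have c2 : ((n - k - 1 : ℕ) : ℤ) = (n : ℤ) - k - 1 := by omega
  zify
  rw [c1, c2]
  exact goalz

/-- The denominator. -/
def den (n k : ℕ) : ℕ :=
  (n - 1)! * (2 * n + 1)! * ((n + k)!) ^ 2 * (n - k - 1)! * (n + 2 * k + 1)! * (2 * k + 1)!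

/-- The numerator. -/
def num (n k : ℕ) : ℕ := (3 * n)! * ((2 * n + 2 * k)!) ^ 2 * k !

lemma den_ne (n k : ℕ) : den n k ≠ 0 := by
  unfold den; positivity

lemma num_ne (n k : ℕ) : num n k ≠ 0 := by
  unfold num; positivity

lemma fac_den (p n k : ℕ) : (den n k).factorization p =
    ((n - 1)!).factorization p + ((2 * n + 1)!).factorization p + 2 * ((n + k)!).factorization p +
      ((n - k - 1)!).factorization p + ((n + 2 * k + 1)!).factorization p +
      ((2 * k + 1)!).factorization p := by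
  unfold den
  have h (m : ℕ) : (m)! ≠ 0 := Nat.factorial_ne_zero m
  rw [Nat.factorization_mul (by positivity) (h _), Nat.factorization_mul (by positivity) (h _),
    Nat.factorization_mul (by positivity) (h _), Nat.factorization_mul (by positivity) (by positivity),
    Nat.factorization_mul (h _) (h _), Nat.factorization_pow]
  simp only [Finsupp.coe_add, Pi.add_apply, Finsupp.coe_smul, Pi.smul_apply, smul_eq_mul]

lemma fac_num (p n k : ℕ) : (num n k).factorization p =
    ((3 * n)!).factorization p + 2 * ((2 * n + 2 * k)!).factorization p + (k !).factorization p := by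
  unfold num
  have h (m : ℕ) : (m)! ≠ 0 := Nat.factorial_ne_zero m
  rw [Nat.factorization_mul (by positivity) (h _), Nat.factorization_mul (h _) (by positivity),
    Nat.factorization_pow]
  simp only [Finsupp.coe_add, Pi.add_apply, Finsupp.coe_smul, Pi.smul_apply, smul_eq_mul]

lemma fac_le (p n k : ℕ) (hp : p.Prime) (hk : k < n) :
    (den n k).factorization p ≤ (num n k).factorization p := by
  rw [fac_den, fac_num]
  set b := Nat.log p (5 * n + 5) + 1 with hb
  have L (m : ℕ) (hm : m ≤ 5 * n + 5) : ((m)!).factorization p = ∑ i ∈ Finset.Ico 1 b, m / p ^ i := by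
    apply Nat.factorization_factorial hp
    have := Nat.log_mono_right (b := p) hm
    omega
  rw [L (n - 1) (by omega), L (2 * n + 1) (by omega), L (n + k) (by omega), L (n - k - 1) (by omega),
    L (n + 2 * k + 1) (by omega), L (2 * k + 1) (by omega), L (3 * n) (by omega),
    L (2 * n + 2 * k) (by omega), L k (by omega), Finset.mul_sum, Finset.mul_sum,
    ← Finset.sum_add_distrib, ← Finset.sum_add_distrib, ← Finset.sum_add_distrib,
    ← Finset.sum_add_distrib, ← Finset.sum_add_distrib, ← Finset.sum_add_distrib,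
    ← Finset.sum_add_distrib]
  apply Finset.sum_le_sum
  intro i hi
  rw [Finset.mem_Ico] at hi
  have : 2 ≤ p ^ i := by
    calc 2 ≤ p := hp.two_le
      _ = p ^ 1 := (pow_one p).symm
      _ ≤ p ^ i := Nat.pow_le_pow_right hp.pos hi.1
  exact floor_nat (p ^ i) n k this hk

/-- Binary digit sum. -/
def ds (m : ℕ) : ℕ := (Nat.digits 2 m).sum

lemma fac_two (m : ℕ) : ((m)!).factorization 2 + ds m = m := by
  have h := Nat.sub_one_mul_factorization_factorial (n := m) Nat.prime_two
  have h2 : (Nat.digits 2 m).sum ≤ m := Nat.digit_sum_le 2 m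
  unfold ds
  omega

lemma ds_two_mul (m : ℕ) : ds (2 * m) = ds m := by
  rcases Nat.eq_zero_or_pos m with h | h
  · simp [h]
  · unfold ds
    rw [Nat.digits_def' (by norm_num) (by omega)]
    have e1 : 2 * m % 2 = 0 := by omega
    have e2 : 2 * m / 2 = m := by omega
    rw [e1, e2]
    simp

lemma ds_two_mul_add_one (m : ℕ) : ds (2 * m + 1) = ds m + 1 := by
  unfold ds
  rw [Nat.digits_def' (by norm_num) (by omega)]
  have e1 : (2 * m + 1) % 2 = 1 := by omega
  have e2 : (2 * m + 1) / 2 = m := by omega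
  rw [e1, e2, List.sum_cons]
  ring

lemma ds_add (a b : ℕ) : ds (a + b) ≤ ds a + ds b := by
  have h := Nat.factorial_mul_factorial_dvd_factorial_add a b
  have h2 := (Nat.factorization_le_iff_dvd (by positivity) (by positivity)).2 h
  have h3 := h2 2
  rw [Nat.factorization_mul (by positivity) (by positivity)] at h3
  simp only [Finsupp.coe_add, Pi.add_apply] at h3
  have := fac_two a
  have := fac_two b
  have := fac_two (a + b)
  omega

lemma ds_pos (m : ℕ) (hm : 0 < m) : 1 ≤ ds m := by
  induction m using Nat.strong_induction_on with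
  | _ m ih =>
    rcases Nat.even_or_odd' m with ⟨c, h | h⟩
    · rw [h, ds_two_mul]
      exact ih c (by omega) (by omega)
    · rw [h, ds_two_mul_add_one]
      omega

lemma ds_one : ds 1 = 1 := by simp [ds]

lemma fac_two_ge (n k : ℕ) (hn : 2 ≤ n) (hk : k < n) :
    (den n k).factorization 2 + 3 ≤ (num n k).factorization 2 := by
  rw [fac_den, fac_num]
  have f1 := fac_two (n - 1)
  have f2 := fac_two (2 * n + 1)
  have f3 := fac_two (n + k)
  have f4 := fac_two (n - k - 1)
  have f5 := fac_two (n + 2 * k + 1)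
  have f6 := fac_two (2 * k + 1)
  have f7 := fac_two (3 * n)
  have f8 := fac_two (2 * n + 2 * k)
  have f9 := fac_two k
  rw [ds_two_mul_add_one] at f2 f6
  rw [show 2 * n + 2 * k = 2 * (n + k) by ring, ds_two_mul] at f8
  rw [show 2 * (n + k) = 2 * n + 2 * k by ring] at f8
  -- 3n - 1 = 2 (n-k-1) + (n+2k+1)
  have g1 : ds (3 * n - 1) ≤ ds (n - k - 1) + ds (n + 2 * k + 1) := by
    have h := ds_add (2 * (n - k - 1)) (n + 2 * k + 1)
    rw [ds_two_mul, show 2 * (n - k - 1) + (n + 2 * k + 1) = 3 * n - 1 by omega] at h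
    exact h
  rcases Nat.lt_or_ge n 3 with h3 | h3
  · have hn2 : n = 2 := by omega
    have d1 : ds (n - 1) = 1 := by rw [hn2]; simp [ds]
    have d2 : ds n = 1 := by rw [hn2]; simp [ds]
    have d5 : ds (3 * n - 1) = 2 := by rw [hn2]; simp [ds]
    have d6 : ds (3 * n) = 2 := by rw [hn2]; simp [ds]
    omega
  · have g2 : ds (3 * n) ≤ ds (3 * n - 1) + 1 := by
      have h := ds_add (3 * n - 1) 1
      rw [ds_one, show 3 * n - 1 + 1 = 3 * n by omega] at h
      exact h
    have g3 : 3 ≤ ds (n - 1) + ds n := by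
      rcases Nat.even_or_odd' n with ⟨c, h | h⟩
      · have e : n - 1 = 2 * (c - 1) + 1 := by omega
        have := ds_two_mul_add_one (c - 1)
        rw [← e] at this
        have := ds_pos (c - 1) (by omega)
        have := ds_pos n (by omega)
        omega
      · have := ds_two_mul_add_one c
        rw [← h] at this
        have := ds_pos c (by omega)
        have := ds_pos (n - 1) (by omega)
        omega
    omega

theorem eight_den_dvd_num (n k : ℕ) (hn : 2 ≤ n) (hk : k < n) : 8 * den n k ∣ num n k := by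
  rw [← Nat.factorization_prime_le_iff_dvd (by have := den_ne n k; positivity) (num_ne n k)]
  intro p hp
  rw [Nat.factorization_mul (by norm_num) (den_ne n k)]
  simp only [Finsupp.coe_add, Pi.add_apply]
  have h8 : Nat.factorization 8 = Finsupp.single 2 3 := by
    rw [show (8 : ℕ) = 2 ^ 3 by norm_num, Nat.Prime.factorization_pow Nat.prime_two]
  rw [h8]
  rcases eq_or_ne p 2 with h | h
  · subst h
    have := fac_two_ge n k hn hk
    simp only [Finsupp.single_eq_same]
    omega
  · rw [Finsupp.single_eq_of_ne (by simpa using h)]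
    have := fac_le p n k hp hk
    omega

end Pool.Agent.Lib.MP_147bb8_nt
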