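import Mathlib

/-!
# A Wilf-Zeilberger pair and a closed form for the partial sums

`B n k`, `F n k`, `G n k` satisfy `F n (k+1) - F n k = G (n+1) k - G n k`, and summing
gives a positive-length formula for the partial sums of `F n 0`.
-/

open Finset Nat

namespace Pool.Agent.Lib.MP_147bb8_nt

/-- The hypergeometric base term. -/
noncomputable def B (n k : ℕ) : ℚ :=
  ((3 * n)! * (2 * n)! * ((2 * n + 2 * k)!) ^ 2 * k ! : ℚ) /
      ((n !) ^ 5 * ((n + k)!) ^ 2 * (n - k)! * (n + 2 * k)! * (2 * k)!)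

lemma fac_ne (m : ℕ) : (m ! : ℚ) ≠ 0 := by exact_mod_cast Nat.factorial_ne_zero m

lemma fac_succ (m : ℕ) : ((m + 1)! : ℚ) = (m + 1) * m ! := by
  rw [Nat.factorial_succ]; push_cast; ring

lemma fac_succ2 (m : ℕ) : ((m + 2)! : ℚ) = (m + 2) * (m + 1) * m ! := by
  rw [Nat.factorial_succ, Nat.factorial_succ]; push_cast; ring

lemma fac_succ3 (m : ℕ) : ((m + 3)! : ℚ) = (m + 3) * (m + 2) * (m + 1) * m ! := by
  rw [Nat.factorial_succ, Nat.factorial_succ, Nat.factorial_succ]; push_cast; ring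

lemma B_succ_right (k m : ℕ) :
    B (k + m + 1) (k + 1) = B (k + m + 1) k *
      (2 * (4 * k + 2 * m + 3) ^ 2 * (m + 1) / ((3 * k + m + 2) * (3 * k + m + 3) * (2 * k + 1))) := by
  unfold B
  have e1 : k + m + 1 - (k + 1) = m := by omega
  have e2 : k + m + 1 - k = m + 1 := by omega
  have e3 : 2 * (k + m + 1) + 2 * (k + 1) = (2 * (k + m + 1) + 2 * k) + 2 := by ring
  have e4 : k + m + 1 + (k + 1) = (k + m + 1 + k) + 1 := by ring
  have e5 : k + m + 1 + 2 * (k + 1) = (k + m + 1 + 2 * k) + 2 := by ring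
  have e6 : 2 * (k + 1) = 2 * k + 2 := by ring
  rw [e1, e2, e3, e4, e5, e6, fac_succ2 (2 * (k + m + 1) + 2 * k), fac_succ k, fac_succ (k + m + 1 + k),
    fac_succ m, fac_succ2 (k + m + 1 + 2 * k), fac_succ2 (2 * k)]
  have h1 := fac_ne (k + m + 1)
  have h2 := fac_ne (k + m + 1 + k)
  have h3 := fac_ne m
  have h4 := fac_ne (k + m + 1 + 2 * k)
  have h5 := fac_ne (2 * k)
  have h6 := fac_ne k
  have g1 : (3 * (k : ℚ) + m + 2) ≠ 0 := by positivity
  have g2 : (3 * (k : ℚ) + m + 3) ≠ 0 := by positivity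
  have g3 : (2 * (k : ℚ) + 1) ≠ 0 := by positivity
  push_cast
  have g4 : ((k : ℚ) + m + 1 + k + 1) ≠ 0 := by positivity
  have g5 : ((k : ℚ) + m + 1 + 2 * k + 2) ≠ 0 := by positivity
  have g6 : ((k : ℚ) + m + 1 + 2 * k + 1) ≠ 0 := by positivity
  have g7 : (2 * (k : ℚ) + 2) ≠ 0 := by positivity
  have g8 : ((m : ℚ) + 1) ≠ 0 := by positivity
  field_simp
  ring

lemma B_succ_left (k m : ℕ) :
    B (k + m + 1) k = B (k + m) k *
      (24 * (3 * (k + m) + 1) * (3 * (k + m) + 2) * (2 * (k + m) + 1) * (4 * k + 2 * m + 1) ^ 2 /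
        ((k + m + 1) ^ 3 * (m + 1) * (3 * k + m + 1))) := by
  unfold B
  have e1 : k + m + 1 - k = m + 1 := by omega
  have e2 : k + m - k = m := by omega
  have e3 : 2 * (k + m + 1) + 2 * k = (2 * (k + m) + 2 * k) + 2 := by ring
  have e4 : k + m + 1 + k = (k + m + k) + 1 := by ring
  have e5 : k + m + 1 + 2 * k = (k + m + 2 * k) + 1 := by ring
  have e6 : 2 * (k + m + 1) = 2 * (k + m) + 2 := by ring
  have e7 : 3 * (k + m + 1) = 3 * (k + m) + 3 := by ring
  rw [e1, e2, e3, e4, e5, e6, e7, fac_succ3 (3 * (k + m)), fac_succ2 (2 * (k + m)),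
    fac_succ2 (2 * (k + m) + 2 * k), fac_succ (k + m + k), fac_succ (k + m),
    fac_succ m, fac_succ (k + m + 2 * k)]
  have h1 := fac_ne (k + m)
  have h2 := fac_ne (k + m + k)
  have h3 := fac_ne m
  have h4 := fac_ne (k + m + 2 * k)
  have h5 := fac_ne (2 * k)
  have h6 := fac_ne k
  push_cast
  have g1 : ((k : ℚ) + m + 1) ≠ 0 := by positivity
  have g2 : ((k : ℚ) + m + k + 1) ≠ 0 := by positivity
  have g3 : ((m : ℚ) + 1) ≠ 0 := by positivity
  have g4 : ((k : ℚ) + m + 2 * k + 1) ≠ 0 := by positivity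
  have g5 : (3 * (k : ℚ) + m + 1) ≠ 0 := by positivity
  field_simp
  ring

/-- WZ term, extended by zero for `n < k`. -/
noncomputable def F (n k : ℕ) : ℚ :=
  if k ≤ n then (-1) ^ (n + k) / 64 ^ n * B n k * (28 * n ^ 2 + 18 * n + 3 + 20 * n * k + 6 * k)
  else 0

/-- WZ mate. -/
noncomputable def G (n k : ℕ) : ℚ :=
  if k ≤ n then (-1) ^ (n + k) / 64 ^ n * B n k *
      (8 * n ^ 3 * (n - k) / ((2 * k + 1) * (n + 2 * k + 1)))
  else 0

lemma wz (n k : ℕ) (hk : k ≤ n) : F n (k + 1) - F n k = G (n + 1) k - G n k := by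
  rcases Nat.lt_or_ge k n with h | h
  · obtain ⟨m, rfl⟩ : ∃ m, n = k + m + 1 := ⟨n - (k + 1), by omega⟩
    have hL := B_succ_left k (m + 1)
    have e0 : k + (m + 1) = k + m + 1 := by ring
    rw [e0] at hL
    have hR := B_succ_right k m
    rw [F, F, G, G, if_pos (by omega), if_pos (by omega), if_pos (by omega), if_pos (by omega),
      hR, hL]
    have p1 : ((-1 : ℚ)) ^ (k + m + 1 + (k + 1)) = - (-1) ^ (k + m + 1 + k) := by
      rw [← add_assoc, pow_succ]; ring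
    have p2 : ((-1 : ℚ)) ^ (k + m + 1 + 1 + k) = - (-1) ^ (k + m + 1 + k) := by
      rw [show k + m + 1 + 1 + k = (k + m + 1 + k) + 1 by ring, pow_succ]; ring
    rw [p1, p2, pow_succ (64 : ℚ) (k + m + 1)]
    generalize ((-1 : ℚ)) ^ (k + m + 1 + k) = s
    generalize B (k + m + 1) k = b
    have h64 : ((64 : ℚ)) ^ (k + m + 1) ≠ 0 := by positivity
    generalize ((64 : ℚ)) ^ (k + m + 1) = w at h64
    push_cast
    have g1 : (3 * (k : ℚ) + m + 2) ≠ 0 := by positivity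
    have g2 : (3 * (k : ℚ) + m + 3) ≠ 0 := by positivity
    have g3 : (2 * (k : ℚ) + 1) ≠ 0 := by positivity
    have g4 : ((k : ℚ) + (m + 1) + 1) ≠ 0 := by positivity
    have g5 : ((m : ℚ) + 1 + 1) ≠ 0 := by positivity
    have g6 : (3 * (k : ℚ) + (m + 1) + 1) ≠ 0 := by positivity
    have g7 : ((k : ℚ) + m + 1 + 1 + 2 * k + 1) ≠ 0 := by positivity
    have g8 : ((k : ℚ) + m + 1 + 2 * k + 1) ≠ 0 := by positivity
    field_simp
    ring
  · obtain rfl : k = n := le_antisymm hk h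
    have hL := B_succ_left k 0
    rw [Nat.add_zero] at hL
    rw [F, F, G, G, if_neg (by omega), if_pos le_rfl, if_pos (by omega), if_pos le_rfl, hL]
    have p2 : ((-1 : ℚ)) ^ (k + 1 + k) = - (-1) ^ (k + k) := by
      rw [show k + 1 + k = (k + k) + 1 by ring, pow_succ]; ring
    rw [p2, pow_succ (64 : ℚ) k]
    generalize ((-1 : ℚ)) ^ (k + k) = s
    generalize B k k = b
    have h64 : ((64 : ℚ)) ^ k ≠ 0 := by positivity
    generalize ((64 : ℚ)) ^ k = w at h64
    push_cast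
    have g3 : (2 * (k : ℚ) + 1) ≠ 0 := by positivity
    have g4 : ((k : ℚ) + 1) ≠ 0 := by positivity
    have g6 : (3 * (k : ℚ) + 1) ≠ 0 := by positivity
    have g7 : ((k : ℚ) + 1 + 2 * k + 1) ≠ 0 := by positivity
    have g8 : ((k : ℚ) + 2 * k + 1) ≠ 0 := by positivity
    simp only [add_zero, zero_add, sub_self, mul_zero, zero_div, sub_zero]
    field_simp
    ring

end Pool.Agent.Lib.MP_147bb8_nt
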